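import Pool.Agent.Lib.MP_2d002d_gt.H39.PIneq

/-!
# The hypotheses of (P) from log-concavity
-/

namespace Pool.Agent.Lib.MP_2d002d_gt.H39

open MeasureTheory Set intervalIntegral

/-- Tangent bound for a log-concave function. -/
theorem tangent_bound (κ : ℝ → ℝ) (S k1 : ℝ) (hS : 0 < S) (pos : ∀ x, 0 < x → 0 < κ x)
    (hlc : ConcaveOn ℝ (Ioi 0) (fun x => Real.log (κ x))) (hd : HasDerivAt κ k1 S)
    (x : ℝ) (hx : 0 < x) : κ x ≤ κ S * Real.exp (k1 / κ S * (x - S)) := by
  have hκS := pos S hS
  have hd' : HasDerivAt (fun x => Real.log (κ x)) (k1 / κ S) S := hd.log hκS.ne'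
  have hle : Real.log (κ x) ≤ Real.log (κ S) + k1 / κ S * (x - S) := by
    rcases lt_trichotomy x S with h | h | h
    · have h1 := hlc.le_slope_of_hasDerivAt (x := x) (y := S) (mem_Ioi.2 hx) (mem_Ioi.2 hS) h hd'
      rw [slope_def_field, le_div_iff₀ (by linarith)] at h1
      linarith
    · rw [h]; simp
    · have h1 := hlc.slope_le_of_hasDerivAt (x := S) (y := x) (mem_Ioi.2 hS) (mem_Ioi.2 hx) h hd'
      rw [slope_def_field, div_le_iff₀ (by linarith)] at h1
      linarith
  calc κ x = Real.exp (Real.log (κ x)) := (Real.exp_log (pos x hx)).symm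
    _ ≤ Real.exp (Real.log (κ S) + k1 / κ S * (x - S)) := Real.exp_le_exp.2 hle
    _ = κ S * Real.exp (k1 / κ S * (x - S)) := by rw [Real.exp_add, Real.exp_log hκS]

/-- The two hypotheses of (P). -/
theorem kappa_cond (κ : ℝ → ℝ) (S k1 : ℝ) (hS : 0 < S) (pos : ∀ x, 0 < x → 0 < κ x)
    (anti : ∀ x, 0 < x → x ≤ S → κ S ≤ κ x)
    (hlc : ConcaveOn ℝ (Ioi 0) (fun x => Real.log (κ x))) (hd : HasDerivAt κ k1 S)
    (hk1 : k1 ≤ 0) (hint : IntervalIntegrable κ volume 0 S) :
    S * κ S ≤ ∫ x in (0 : ℝ)..S, κ x ∧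
    (3 * κ S + S * k1) * (∫ x in (0 : ℝ)..S, κ x) ≤ (2 + √3) * S * κ S ^ 2 := by
  have hκS := pos S hS
  set P : ℝ := ∫ x in (0 : ℝ)..S, κ x with hP
  have h1 : S * κ S ≤ P := by
    have h0 : ∫ x in (0 : ℝ)..S, κ S = S * κ S := by
      rw [intervalIntegral.integral_const]; simp
    rw [← h0, hP]
    apply intervalIntegral.integral_mono_on_of_le_Ioo hS.le intervalIntegrable_const hint
    intro x hx
    exact anti x hx.1 hx.2.le
  refine ⟨h1, ?_⟩
  have hPpos : 0 < P := lt_of_lt_of_le (by positivity) h1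
  obtain ⟨Λ, rfl⟩ : ∃ Λ : ℝ, k1 = -(Λ * κ S / S) := ⟨-(k1 * S / κ S), by field_simp⟩
  have hΛ : 0 ≤ Λ := by
    have : 0 ≤ Λ * κ S / S := by linarith
    by_contra hneg
    push Not at hneg
    have : Λ * κ S / S < 0 := div_neg_of_neg_of_pos (mul_neg_of_neg_of_pos hneg hκS) hS
    linarith
  have htan : ∀ x, 0 < x → κ x ≤ κ S * Real.exp (Λ / S * (S - x)) := by
    intro x hx
    have := tangent_bound κ S _ hS pos hlc hd x hx
    have e : -(Λ * κ S / S) / κ S * (x - S) = Λ / S * (S - x) := by
      field_simp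
      ring
    rwa [e] at this
  have hup : P ≤ ∫ x in (0 : ℝ)..S, κ S * Real.exp (Λ / S * (S - x)) := by
    rw [hP]
    apply intervalIntegral.integral_mono_on_of_le_Ioo hS.le hint
    · apply Continuous.intervalIntegrable
      fun_prop
    · intro x hx
      exact htan x hx.1
  have hkey : 3 ≤ (2 + √3) * (S * κ S / P) + Λ := by
    apply key_exp Λ hΛ
    · rcases eq_or_lt_of_le hΛ with h | h
      · rw [← h]; simp
      · have hE : ∫ x in (0 : ℝ)..S, κ S * Real.exp (Λ / S * (S - x))
            = κ S * (S / Λ * (Real.exp Λ - 1)) := by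
          rw [intervalIntegral.integral_const_mul]
          congr 1
          have hder : ∀ x ∈ uIcc (0 : ℝ) S,
              HasDerivAt (fun x => -(S / Λ) * Real.exp (Λ / S * (S - x)))
                (Real.exp (Λ / S * (S - x))) x := by
            intro x _
            have e1 : HasDerivAt (fun x : ℝ => Λ / S * (S - x)) (Λ / S * (-1)) x :=
              ((hasDerivAt_id x).const_sub S).const_mul (Λ / S)
            have e2 := (e1.exp).const_mul (-(S / Λ))
            refine e2.congr_deriv ?_
            field_simp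
          rw [intervalIntegral.integral_eq_sub_of_hasDerivAt hder
            (by apply Continuous.intervalIntegrable; fun_prop)]
          have : Λ / S * S = Λ := by field_simp
          simp only [sub_self, mul_zero, Real.exp_zero, sub_zero, this]
          ring
        rw [hE] at hup
        rw [div_mul_eq_mul_div, le_div_iff₀ hPpos]
        have := mul_le_mul_of_nonneg_left hup hΛ
        refine le_trans this (le_of_eq ?_)
        field_simp
    · positivity
    · intro h
      rw [h] at hup
      simp only [zero_div, zero_mul, Real.exp_zero, mul_one, intervalIntegral.integral_const,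
        sub_zero, smul_eq_mul] at hup
      rw [le_div_iff₀ hPpos]
      linarith
  have e3 : (3 * κ S + S * -(Λ * κ S / S)) * P = (3 - Λ) * (κ S * P) := by
    field_simp
    ring
  have e4 : (2 + √3) * S * κ S ^ 2 = ((2 + √3) * (S * κ S / P)) * (κ S * P) := by
    field_simp
  rw [e3, e4]
  apply mul_le_mul_of_nonneg_right _ (by positivity)
  linarith

end Pool.Agent.Lib.MP_2d002d_gt.H39
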