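import Mathlib

/-!
# The one-dimensional inequality (P) on a compact interval
-/

namespace Pool.Agent.Lib.MP_2d002d_gt.H39

open MeasureTheory Set intervalIntegral

/-- The elementary function behind (P). -/
theorem g_nonneg (Λ : ℝ) (h0 : 0 ≤ Λ) :
    0 ≤ 3 + (1 + √3) * Λ - (3 - Λ) * Real.exp Λ := by
  have hs : (2.73 : ℝ) ≤ 1 + √3 := by
    have : (1.73 : ℝ) ≤ √3 := by
      apply Real.le_sqrt_of_sq_le; norm_num
    linarith
  have he : Real.exp 1 < 2.7182818286 := Real.exp_one_lt_d9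
  have hmono : MonotoneOn (fun x : ℝ => 3 + (1 + √3) * x - (3 - x) * Real.exp x) (Set.Ici 0) := by
    apply monotoneOn_of_deriv_nonneg (convex_Ici 0)
    · fun_prop
    · fun_prop
    · intro x hx
      have hd : HasDerivAt (fun x : ℝ => 3 + (1 + √3) * x - (3 - x) * Real.exp x)
          (((1 + √3) * 1) - ((-1) * Real.exp x + (3 - x) * Real.exp x)) x := by
        have h1 : HasDerivAt (fun x : ℝ => 3 + (1 + √3) * x) ((1 + √3) * 1) x :=
          ((hasDerivAt_id x).const_mul (1 + √3)).const_add 3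
        have h2 : HasDerivAt (fun x : ℝ => (3 - x)) (-1) x :=
          (hasDerivAt_id x).const_sub 3
        exact h1.sub (h2.mul (Real.hasDerivAt_exp x))
      rw [hd.deriv]
      have h3 : (2 - x) * Real.exp x ≤ Real.exp 1 := by
        have h4 : (2 - x) ≤ Real.exp (1 - x) := by
          have := Real.add_one_le_exp (1 - x)
          linarith
        calc (2 - x) * Real.exp x ≤ Real.exp (1 - x) * Real.exp x :=
              mul_le_mul_of_nonneg_right h4 (Real.exp_pos x).le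
          _ = Real.exp 1 := by rw [← Real.exp_add]; congr 1; ring
      nlinarith
  have := hmono (Set.mem_Ici.2 le_rfl) (Set.mem_Ici.2 h0) h0
  simpa using this

/-- `(2+√3) m + Λ ≥ 3`, in the form used in (P). -/
theorem key_exp (Λ : ℝ) (h0 : 0 ≤ Λ) (m : ℝ) (hm : Λ ≤ m * (Real.exp Λ - 1))
    (hm0 : 0 ≤ m) (hz : Λ = 0 → 1 ≤ m) : 3 ≤ (2 + √3) * m + Λ := by
  have hs : (1.73 : ℝ) ≤ √3 := by
    apply Real.le_sqrt_of_sq_le; norm_num
  rcases eq_or_lt_of_le h0 with h | h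
  · have := hz h.symm
    nlinarith
  · have hE : 0 < Real.exp Λ - 1 := by
      have := Real.add_one_lt_exp h.ne'
      linarith
    have hg := g_nonneg Λ h0
    by_contra hcon
    push Not at hcon
    have h1 : ((2 + √3) * m + Λ) * (Real.exp Λ - 1) < 3 * (Real.exp Λ - 1) :=
      mul_lt_mul_of_pos_right hcon hE
    have h2 : (2 + √3) * Λ ≤ (2 + √3) * (m * (Real.exp Λ - 1)) :=
      mul_le_mul_of_nonneg_left hm (by positivity)
    nlinarith

/-- The pointwise inequality behind (P): `P = Φ(S)`, `k = κ(S)`, `k1 = κ'(S)`, `S1 = S'`,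
`S2 = S''`, `cz` the derivative of `c`, `d` a number with `|d| ≤ |cz|`. -/
theorem pointwise (P k k1 S S1 S2 c cz d γ : ℝ) (hP : 0 < P) (hk : 0 < k) (hS : 0 < S)
    (hS1 : 0 ≤ S1) (hS2 : S2 ≤ 0) (h1 : S * k ≤ P)
    (h2 : (3 * k + S * k1) * P ≤ (2 + √3) * S * k ^ 2) (hd : |d| ≤ |cz|) :
    |γ| * (k * S * d - |c| * (k * S - k1 * S1 * S - k * S1)) ≤
      P * ((γ * S + S1 * c) ^ 2 * (k / P) ^ 2 - 2 * γ * S1 * c * (k / P)
        - S2 * c ^ 2 * (k / P) + cz ^ 2) := by
  obtain ⟨w, hw0, rfl⟩ : ∃ w : ℝ, 0 < w ∧ k = P * w :=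
    ⟨k / P, div_pos hk hP, by field_simp⟩
  obtain ⟨q, rfl⟩ : ∃ q : ℝ, k1 = P * w * q / S := ⟨k1 * S / (P * w), by field_simp⟩
  have hγ : 0 ≤ |γ| := abs_nonneg γ
  have hm1 : S * w ≤ 1 := by
    have : P * (S * w) ≤ P * 1 := by nlinarith
    exact le_of_mul_le_mul_left this hP
  have h3 : 3 + q ≤ (2 + √3) * (S * w) := by
    have e : (3 * (P * w) + S * (P * w * q / S)) * P = (3 + q) * (P ^ 2 * w) := by
      field_simp
    have e2 : (2 + √3) * S * (P * w) ^ 2 = ((2 + √3) * (S * w)) * (P ^ 2 * w) := by ring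
    rw [e, e2] at h2
    exact le_of_mul_le_mul_right h2 (by positivity)
  have hww : P * w / P = w := by field_simp
  rw [hww]
  set m : ℝ := S * w with hm
  have hm0 : 0 < m := mul_pos hS hw0
  set t : ℝ := S1 * |c| * w with ht
  have ht0 : 0 ≤ t := by positivity
  have hcz : d ^ 2 ≤ cz ^ 2 := sq_le_sq.2 hd
  have hsq3 : √3 * √3 = 3 := Real.mul_self_sqrt (by norm_num)
  have habs : |c| * |c| = c ^ 2 := by rw [← sq, sq_abs]
  have hγ2 : |γ| * |γ| = γ ^ 2 := by rw [← sq, sq_abs]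
  have hcross : -(|γ| * t) ≤ -(γ * (S1 * c * w)) := by
    have : γ * (S1 * c * w) ≤ |γ| * t := by
      calc γ * (S1 * c * w) ≤ |γ * (S1 * c * w)| := le_abs_self _
        _ = |γ| * t := by
          rw [abs_mul, abs_mul, abs_mul, abs_of_nonneg hS1, abs_of_pos hw0, ht]
    linarith
  have e1 : P * w * S * d = P * (m * d) := by rw [hm]; ring
  have e2 : |c| * (P * w * S - P * w * q / S * S1 * S - P * w * S1)
      = P * (m * |c| - (q + 1) * t) := by
    rw [hm, ht]; field_simp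
    ring
  rw [e1, e2]
  have e3 : |γ| * (P * (m * d) - P * (m * |c| - (q + 1) * t))
      = P * (|γ| * (m * d - m * |c| + (q + 1) * t)) := by ring
  rw [e3]
  apply mul_le_mul_of_nonneg_left _ hP.le
  have e4 : (γ * S + S1 * c) ^ 2 * w ^ 2 = γ ^ 2 * m ^ 2 + 2 * m * (γ * (S1 * c * w)) + t ^ 2 := by
    have : t ^ 2 = S1 ^ 2 * c ^ 2 * w ^ 2 := by rw [ht, ← habs]; ring
    rw [this, hm]; ring
  have e5 : 2 * γ * S1 * c * w = 2 * (γ * (S1 * c * w)) := by ring
  rw [e4, e5]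
  have f1 : 0 ≤ -(S2 * c ^ 2 * w) := by
    have : 0 ≤ (-S2) * c ^ 2 * w := by
      have := neg_nonneg.2 hS2
      positivity
    linarith
  have f2 : 0 ≤ |γ| * (m * |c|) := by positivity
  have f3 : |γ| * m * d ≤ cz ^ 2 + γ ^ 2 * m ^ 2 / 4 := by
    nlinarith [sq_nonneg (d - |γ| * m / 2)]
  have f4 : |γ| * t * (3 + q) ≤ |γ| * t * ((2 + √3) * m) :=
    mul_le_mul_of_nonneg_left h3 (by positivity)
  have f5 : (1 - m) * (-(|γ| * t)) ≤ (1 - m) * (-(γ * (S1 * c * w))) :=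
    mul_le_mul_of_nonneg_left hcross (by linarith)
  have f6 : 0 ≤ (√3 / 2 * (|γ| * m) - t) ^ 2 := sq_nonneg _
  have f7 : (√3 / 2 * (|γ| * m) - t) ^ 2 = 3 / 4 * (γ ^ 2 * m ^ 2) - √3 * (|γ| * m * t) + t ^ 2 := by
    have : (√3 / 2 * (|γ| * m) - t) ^ 2
        = (√3 * √3) / 4 * ((|γ| * |γ|) * m ^ 2) - √3 * (|γ| * m * t) + t ^ 2 := by ring
    rw [this, hsq3, hγ2]
  rw [f7] at f6
  clear_value m t
  clear hS2 hd hww e1 e2 e3 e4 e5 f7 hcross h2 h1 h3 hcz hγ hγ2 hsq3 habs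
  linarith

/-- (P) on a compact interval. `P z = Φ(S z)`, `k z = κ(S z)`, `k1 z = κ'(S z)`. -/
theorem P_integral (Z γ : ℝ) (hZ : 0 ≤ Z) (S S1 S2 P k k1 c c1 : ℝ → ℝ)
    (hSc : ContinuousOn S (Icc 0 Z)) (hS1c : ContinuousOn S1 (Icc 0 Z))
    (hS2c : ContinuousOn S2 (Icc 0 Z)) (hPc : ContinuousOn P (Icc 0 Z))
    (hkc : ContinuousOn k (Icc 0 Z)) (hk1c : ContinuousOn k1 (Icc 0 Z))
    (hcc : ContinuousOn c (Icc 0 Z)) (hc1c : ContinuousOn c1 (Icc 0 Z))
    (hS : ∀ z ∈ Ioo 0 Z, HasDerivAt S (S1 z) z)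
    (hk : ∀ z ∈ Ioo 0 Z, HasDerivAt k (k1 z * S1 z) z)
    (hc : ∀ z ∈ Ioo 0 Z, HasDerivAt c (c1 z) z)
    (hc0 : c 0 = 0) (hcZ : c Z = 0)
    (pP : ∀ z ∈ Icc 0 Z, 0 < P z) (pk : ∀ z ∈ Icc 0 Z, 0 < k z) (pS : ∀ z ∈ Icc 0 Z, 0 < S z)
    (pS1 : ∀ z ∈ Icc 0 Z, 0 ≤ S1 z) (pS2 : ∀ z ∈ Icc 0 Z, S2 z ≤ 0)
    (h1 : ∀ z ∈ Icc 0 Z, S z * k z ≤ P z)
    (h2 : ∀ z ∈ Icc 0 Z, (3 * k z + S z * k1 z) * P z ≤ (2 + √3) * S z * k z ^ 2) :
    0 ≤ ∫ z in (0 : ℝ)..Z, Real.exp (-z) * (P z * ((γ * S z + S1 z * c z) ^ 2 * (k z / P z) ^ 2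
      - 2 * γ * S1 z * c z * (k z / P z) - S2 z * c z ^ 2 * (k z / P z) + c1 z ^ 2)) := by
  set I : ℝ → ℝ := fun z => Real.exp (-z) * (P z * ((γ * S z + S1 z * c z) ^ 2 * (k z / P z) ^ 2
      - 2 * γ * S1 z * c z * (k z / P z) - S2 z * c z ^ 2 * (k z / P z) + c1 z ^ 2)) with hI
  set B : ℝ → ℝ := fun z => Real.exp (-z) * (k z * S z - k1 z * S1 z * S z - k z * S1 z) with hB
  have hexp : ContinuousOn (fun z : ℝ => Real.exp (-z)) (Icc 0 Z) := by fun_prop
  have hkP : ContinuousOn (fun z => k z / P z) (Icc 0 Z) :=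
    hkc.div hPc (fun z hz => (pP z hz).ne')
  have hIc : ContinuousOn I (Icc 0 Z) := by
    rw [hI]; fun_prop
  have hBc : ContinuousOn B (Icc 0 Z) := by
    rw [hB]; fun_prop
  obtain ⟨C, hC⟩ : ∃ C : ℝ, ∀ z ∈ Icc 0 Z, ‖B z‖ ≤ C :=
    isCompact_Icc.exists_bound_of_continuousOn hBc
  have hC0 : 0 ≤ C := le_trans (norm_nonneg _) (hC 0 (left_mem_Icc.2 hZ))
  have huI : uIcc 0 Z = Icc 0 Z := uIcc_of_le hZ
  -- main estimate for every ε > 0
  have main : ∀ ε : ℝ, 0 < ε → -(|γ| * (C * Z)) * ε ≤ ∫ z in (0 : ℝ)..Z, I z := by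
    intro ε hε
    set ce : ℝ → ℝ := fun z => √(c z ^ 2 + ε ^ 2) - ε with hce
    set de : ℝ → ℝ := fun z => c z * c1 z / √(c z ^ 2 + ε ^ 2) with hde
    have hpos : ∀ z, 0 < c z ^ 2 + ε ^ 2 := fun z => by positivity
    have hsq : ∀ z, 0 < √(c z ^ 2 + ε ^ 2) := fun z => Real.sqrt_pos.2 (hpos z)
    have hcec : ContinuousOn ce (Icc 0 Z) := by
      rw [hce]; fun_prop
    have hdec : ContinuousOn de (Icc 0 Z) := by
      rw [hde]
      apply ContinuousOn.div (by fun_prop) (by fun_prop)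
      intro z _; exact (hsq z).ne'
    have hced : ∀ z ∈ Ioo 0 Z, HasDerivAt ce (de z) z := by
      intro z hz
      have h := ((hc z hz).pow 2).add_const (ε ^ 2)
      have h' := (h.sqrt (hpos z).ne').sub_const ε
      refine h'.congr_deriv ?_
      rw [hde]
      simp only [Pi.pow_apply]
      have := (hsq z).ne'
      field_simp
      push_cast
      ring
    have hde_le : ∀ z, |de z| ≤ |c1 z| := by
      intro z
      rw [hde]
      simp only
      rw [abs_div, abs_mul, abs_of_pos (hsq z), div_le_iff₀ (hsq z), mul_comm]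
      apply mul_le_mul_of_nonneg_left _ (abs_nonneg _)
      apply Real.le_sqrt_of_sq_le
      rw [sq_abs]
      nlinarith [sq_nonneg ε]
    have hdiff : ∀ z, ce z ≤ |c z| ∧ |c z| ≤ ce z + ε := by
      intro z
      have ha : 0 ≤ |c z| := abs_nonneg _
      constructor
      · have : √(c z ^ 2 + ε ^ 2) ≤ |c z| + ε := by
          rw [Real.sqrt_le_left (by positivity)]
          rw [← sq_abs (c z)]
          nlinarith
        rw [hce]; simp only; linarith
      · have : |c z| ≤ √(c z ^ 2 + ε ^ 2) := by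
          apply Real.le_sqrt_of_sq_le
          rw [sq_abs]
          nlinarith [sq_nonneg ε]
        rw [hce]; simp only; linarith
    set G : ℝ → ℝ := fun z => Real.exp (-z) * (k z * S z) with hG
    have hGc : ContinuousOn G (Icc 0 Z) := by
      rw [hG]; fun_prop
    have hGd : ∀ z ∈ Ioo 0 Z, HasDerivAt G (-(B z)) z := by
      intro z hz
      have he : HasDerivAt (fun z : ℝ => Real.exp (-z)) (Real.exp (-z) * (-1)) z :=
        (Real.hasDerivAt_exp (-z)).comp z (hasDerivAt_neg z)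
      have h := he.mul ((hk z hz).mul (hS z hz))
      refine h.congr_deriv ?_
      rw [hB]
      simp only [Pi.mul_apply]
      ring
    have hparts : ∫ z in (0 : ℝ)..Z, G z * de z = ∫ z in (0 : ℝ)..Z, B z * ce z := by
      have h := integral_mul_deriv_eq_deriv_mul_of_hasDerivAt (a := 0) (b := Z)
        (u := G) (v := ce) (u' := fun z => -(B z)) (v' := de)
        (by rw [huI]; exact hGc) (by rw [huI]; exact hcec)
        (by rw [min_eq_left hZ, max_eq_right hZ]; exact hGd)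
        (by rw [min_eq_left hZ, max_eq_right hZ]; exact hced)
        ((hBc.neg).intervalIntegrable_of_Icc hZ) (hdec.intervalIntegrable_of_Icc hZ)
      have hce0 : ce 0 = 0 := by
        rw [hce]; simp only; rw [hc0]; simp [Real.sqrt_sq hε.le]
      have hceZ : ce Z = 0 := by
        rw [hce]; simp only; rw [hcZ]; simp [Real.sqrt_sq hε.le]
      rw [h, hce0, hceZ]
      simp only [mul_zero, sub_zero, zero_sub, neg_mul]
      rw [intervalIntegral.integral_neg, neg_neg]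
    have hpt : ∀ z ∈ Icc 0 Z, |γ| * (G z * de z - B z * |c z|) ≤ I z := by
      intro z hz
      have h := pointwise (P z) (k z) (k1 z) (S z) (S1 z) (S2 z) (c z) (c1 z) (de z) γ (pP z hz)
        (pk z hz) (pS z hz) (pS1 z hz) (pS2 z hz) (h1 z hz) (h2 z hz) (hde_le z)
      have h' := mul_le_mul_of_nonneg_left h (Real.exp_pos (-z)).le
      refine le_trans (le_of_eq ?_) h'
      rw [hG, hB]
      simp only
      ring
    have hcabs : ContinuousOn (fun z => |c z|) (Icc 0 Z) := hcc.abs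
    have hi1 : IntervalIntegrable (fun z => G z * de z) volume 0 Z :=
      (hGc.mul hdec).intervalIntegrable_of_Icc hZ
    have hi2 : IntervalIntegrable (fun z => B z * |c z|) volume 0 Z :=
      (hBc.mul hcabs).intervalIntegrable_of_Icc hZ
    have hi3 : IntervalIntegrable (fun z => B z * ce z) volume 0 Z :=
      (hBc.mul hcec).intervalIntegrable_of_Icc hZ
    have hmono : ∫ z in (0 : ℝ)..Z, |γ| * (G z * de z - B z * |c z|) ≤ ∫ z in (0 : ℝ)..Z, I z :=
      intervalIntegral.integral_mono_on hZ ((hi1.sub hi2).const_mul |γ|)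
        (hIc.intervalIntegrable_of_Icc hZ) hpt
    have heq : ∫ z in (0 : ℝ)..Z, |γ| * (G z * de z - B z * |c z|)
        = |γ| * ∫ z in (0 : ℝ)..Z, B z * (ce z - |c z|) := by
      rw [intervalIntegral.integral_const_mul, intervalIntegral.integral_sub hi1 hi2, hparts,
        ← intervalIntegral.integral_sub hi3 hi2]
      congr 2
      ext z
      ring
    have hlow : -(C * ε) * Z ≤ ∫ z in (0 : ℝ)..Z, B z * (ce z - |c z|) := by
      have h0 : ∫ z in (0 : ℝ)..Z, -(C * ε) = -(C * ε) * Z := by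
        rw [intervalIntegral.integral_const]; simp [mul_comm]
      rw [← h0]
      apply intervalIntegral.integral_mono_on hZ
      · exact intervalIntegrable_const
      · exact (hBc.mul (hcec.sub hcabs)).intervalIntegrable_of_Icc hZ
      · intro z hz
        have hb := hC z hz
        rw [Real.norm_eq_abs] at hb
        have hd := hdiff z
        have : |B z * (ce z - |c z|)| ≤ C * ε := by
          rw [abs_mul]
          apply mul_le_mul hb _ (abs_nonneg _) hC0
          rw [abs_le]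
          constructor <;> linarith [hd.1, hd.2]
        linarith [(abs_le.1 this).1]
    have := mul_le_mul_of_nonneg_left hlow (abs_nonneg γ)
    rw [heq] at hmono
    nlinarith
  -- let ε → 0
  by_contra hneg
  push Not at hneg
  set K : ℝ := |γ| * (C * Z) with hK
  have hK0 : 0 ≤ K := by positivity
  have hε : 0 < -(∫ z in (0 : ℝ)..Z, I z) / (2 * (K + 1)) := by
    apply div_pos (by linarith) (by positivity)
  have h := main _ hε
  have hlt : K * (-(∫ z in (0 : ℝ)..Z, I z) / (2 * (K + 1))) < -(∫ z in (0 : ℝ)..Z, I z) := by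
    rw [mul_div_assoc']
    rw [div_lt_iff₀ (by positivity)]
    have : 0 < -(∫ z in (0 : ℝ)..Z, I z) := by linarith
    nlinarith
  linarith

end Pool.Agent.Lib.MP_2d002d_gt.H39
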